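import Pool.Agent.W838.DC.Slice
import Pool.Agent.W838.DC.TabChk

/-!
# VX: at the top vertex of a special matching all the plane conditions hold
-/

set_option autoImplicit false

namespace Pool.Agent.W828.DC

open Pool.Agent.W838.DC Sys Tab

variable {V X : Type*} [AddCommGroup V] {σ : Sys V X}

/-- the plane condition for the pair `a, b` -/
def Pair (σ : Sys V X) (y : X) (a b : V) : Prop :=
  (σ.ip a b = 0 → σ.P (σ.r a (σ.r b y))) ∧
  (σ.ip a b = -1 → σ.P (σ.r a (σ.r b y)) ∨ σ.P (σ.r b (σ.r a y))) ∧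
  (σ.ip a b = 1 → σ.N y (b - a) → σ.P (σ.r a (σ.r b y)))

theorem R_perp {x : X} {a b : V} (ha : a ∈ σ.Φ) (h : σ.R x b) (h0 : σ.ip a b = 0) :
    σ.R (σ.r a x) b :=
  ⟨h.1, h.2.1, by rw [σ.lab_r_zero ha x h0]; exact h.2.2⟩

theorem down_perp {y : X} {a b α : V} (ha : a ∈ σ.Φ) (hb : b ∈ σ.Φ) (hα : σ.R y α)
    (h1 : σ.ip α a = 0) (h2 : σ.ip α b = 0) (h : σ.P (σ.r a (σ.r b (σ.r α y)))) :
    σ.P (σ.r a (σ.r b y)) := by
  have h1' : σ.ip a α = 0 := by rw [σ.ip_symm]; exact h1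
  have h2' : σ.ip b α = 0 := by rw [σ.ip_symm]; exact h2
  rw [σ.r_comm hb hα.1 h2', σ.r_comm ha hα.1 h1'] at h
  exact σ.P_of_R (R_perp ha (R_perp hb hα h2') h1') h

theorem psi_up {y : X} {α b : V} (hα : σ.Psi y α) (hb : σ.Psi y b) (h0 : σ.ip α b = 0)
    (h : σ.P (σ.r α (σ.r b y))) : σ.Psi (σ.r α y) b :=
  ⟨R_perp hα.1.1 hb.1 h0, by rw [← σ.r_comm hα.1.1 hb.1.1 h0]; exact h⟩

/-! ### case I -/

theorem case1 {y : X} {α a b : V} (hreg : ∀ a, σ.Psi y a → σ.RegUp (σ.r a y)) (hα : σ.Psi y α)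
    (hv : VAt σ y α) (ha : σ.Psi y a) (hb : σ.Psi y b) (h1 : σ.ip α a = 0) (h2 : σ.ip α b = 0) :
    Pair σ y a b := by
  have pa := psi_up hα ha h1 (hv.perp a ha h1)
  have pb := psi_up hα hb h2 (hv.perp b hb h2)
  have hV := (hreg α hα).v
  refine ⟨fun h => ?_, fun h => ?_, fun h hN => ?_⟩
  · exact down_perp ha.1.1 hb.1.1 hα.1 h1 h2 (hV.perp a b pa pb h)
  · rcases hV.neg a b pa pb h with h' | h'
    · exact Or.inl (down_perp ha.1.1 hb.1.1 hα.1 h1 h2 h')
    · exact Or.inr (down_perp hb.1.1 ha.1.1 hα.1 h2 h1 h')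
  · refine down_perp ha.1.1 hb.1.1 hα.1 h1 h2 (hV.pos a b pa pb h ?_)
    refine ⟨hN.1, hN.2.1, ?_⟩
    rw [σ.lab_r_zero hα.1.1 y (by rw [σ.ip_sub_right, h1, h2]; rfl)]
    exact hN.2.2

/-! ### case III -/

theorem case3 {y : X} {α a b : V} (hreg : ∀ a, σ.Psi y a → σ.RegUp (σ.r a y)) (hα : σ.Psi y α)
    (hi : Indec σ y α) (hv : VAt σ y α) (ha : σ.Psi y a) (hb : σ.Psi y b)
    (h0 : σ.ip a b = 0) (h2 : σ.ip α b = 0) (h1 : σ.ip α a = -1 ∨ σ.ip α a = 1) :
    σ.P (σ.r b (σ.r a y)) := by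
  have mα := hα.1.1
  have ma := ha.1.1
  have mb := hb.1.1
  have lα := hα.1.2.2
  have la := ha.1.2.2
  have pb := psi_up hα hb h2 (hv.perp b hb h2)
  have hV := (hreg α hα).v
  have h0' : σ.ip b a = 0 := by rw [σ.ip_symm]; exact h0
  have h2' : σ.ip b α = 0 := by rw [σ.ip_symm]; exact h2
  rcases h1 with h1 | h1
  · have h1' : σ.ip a α = -1 := by rw [σ.ip_symm]; exact h1
    have ms : a + α ∈ σ.Φ := σ.add_mem ma mα h1'
    have hts : 0 < σ.ht (a + α) := by
      rw [map_add]; have := ha.1.2.1; have := hα.1.2.1; omega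
    have hbs : σ.ip b (a + α) = 0 := by rw [σ.ip_add_right, h0', h2']; rfl
    rcases hv.neg a ha h1 with h | h
    · -- `P (r α (r a y))`
      have e1 : σ.r α (σ.r a y) = σ.r (a + α) (σ.r α y) := by
        rw [σ.r_conj_neg mα ma h1, add_comm]
      have ps : σ.Psi (σ.r α y) (a + α) := by
        refine ⟨⟨ms, hts, ?_⟩, by rw [← e1]; exact h⟩
        rw [σ.lab_r_pos mα y (by rw [σ.ip_add_right, h1, σ.ip_self α mα]; rfl), map_add,
          add_sub_cancel_right]
        exact la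
      have h3 := hV.perp b (a + α) pb ps hbs
      rw [← e1, σ.r_comm mb mα h2'] at h3
      refine σ.P_of_R (R_perp mb ⟨mα, hα.1.2.1, ?_⟩ h2') h3
      rw [σ.lab_r_neg ma y h1', map_add]
      omega
    · -- `P (r a (r α y))`
      have pa : σ.Psi (σ.r α y) a := by
        refine ⟨⟨ma, ha.1.2.1, ?_⟩, h⟩
        rw [σ.lab_r_neg mα y h1, map_add]
        omega
      have h3 := hV.perp b a pb pa h0'
      rw [σ.r_conj_neg ma mα h1', σ.r_comm mb ms hbs] at h3
      refine σ.P_of_R (R_perp mb ⟨ms, hts, ?_⟩ hbs) h3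
      rw [σ.lab_r_pos ma y (by rw [σ.ip_add_right, σ.ip_self a ma, h1']; rfl), map_add,
        add_sub_cancel_left]
      exact lα
  · have h1' : σ.ip a α = 1 := by rw [σ.ip_symm]; exact h1
    have md : a - α ∈ σ.Φ := σ.sub_mem ma mα h1'
    have md' : α - a ∈ σ.Φ := σ.sub_mem mα ma h1
    have hbd : σ.ip b (a - α) = 0 := by rw [σ.ip_sub_right, h0', h2']; rfl
    have hbd' : σ.ip b (α - a) = 0 := by rw [σ.ip_sub_right, h0', h2']; rfl
    rcases lt_or_gt_of_ne (σ.ht_ne _ md) with hd | hd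
    · -- `α - a` positive
      have hd' : 0 < σ.ht (α - a) := by
        rw [map_sub] at hd ⊢; omega
      rcases σ.R_or_N y md' hd' with hR | hN
      · exact absurd (by abel : α = a + (α - a)) (hi a (α - a) ha.1 hR)
      · have h := hv.pos' a ha h1 hN
        have pa : σ.Psi (σ.r α y) a := by
          refine ⟨⟨ma, ha.1.2.1, ?_⟩, h⟩
          rw [σ.lab_r_pos mα y h1, map_sub]
          have := hN.2.2
          rw [map_sub, map_sub] at this
          omega
        have h3 := hV.perp b a pb pa h0'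
        rw [σ.r_conj_pos ma mα h1', σ.r_comm mb md' hbd'] at h3
        refine σ.P_of_R (R_perp mb ⟨md', hd', ?_⟩ hbd') h3
        rw [σ.lab_r_neg ma y (by rw [σ.ip_sub_right, σ.ip_self a ma, h1']; rfl), map_sub]
        rw [show σ.lab y a + (σ.lab y α - σ.lab y a) = σ.lab y α by abel]
        exact lα
    · rcases σ.R_or_N y md hd with hR | hN
      · -- the whole plane is in the region
        have e1 : σ.r a (σ.r α y) = σ.r (a - α) (σ.r a y) := by
          rw [σ.r_conj_pos ma mα h1', ← neg_sub, σ.r_neg md]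
        have hag : σ.ip a (a - α) = 1 := by rw [σ.ip_sub_right, σ.ip_self a ma, h1']; rfl
        have lg : σ.lab (σ.r a y) (a - α) = - σ.lab y α := by
          rw [σ.lab_r_pos ma y hag, map_sub]; abel
        have hP : σ.P (σ.r a (σ.r α y)) := by
          rw [e1]
          refine σ.P_of_N ⟨md, hd, ?_⟩ ha.2
          rw [lg, map_neg]; omega
        have pa : σ.Psi (σ.r α y) a := by
          refine ⟨⟨ma, ha.1.2.1, ?_⟩, hP⟩
          rw [σ.lab_r_pos mα y h1, ← map_sub]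
          exact hR.2.2
        have h3 := hV.perp b a pb pa h0'
        have hV2 := ((hreg α hα).step pa).v
        have pb2 : σ.Psi (σ.r a (σ.r α y)) b := ⟨R_perp ma pb.1 h0, h3⟩
        have pg2 : σ.Psi (σ.r a (σ.r α y)) (a - α) := by
          rw [e1]
          refine ⟨⟨md, hd, ?_⟩, by rw [σ.r_r md]; exact ha.2⟩
          rw [σ.lab_r_self md, lg, neg_neg]
          exact lα
        have h4 := hV2.perp b (a - α) pb2 pg2 hbd
        rw [e1, σ.r_r md] at h4
        exact h4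
      · have h := hv.pos a ha h1 hN
        have e1 : σ.r α (σ.r a y) = σ.r (a - α) (σ.r α y) := σ.r_conj_pos mα ma h1 y
        have ps : σ.Psi (σ.r α y) (a - α) := by
          refine ⟨⟨md, hd, ?_⟩, by rw [← e1]; exact h⟩
          rw [σ.lab_r_neg mα y (by rw [σ.ip_sub_right, h1, σ.ip_self α mα]; rfl), map_sub]
          rw [show σ.lab y α + (σ.lab y a - σ.lab y α) = σ.lab y a by abel]
          exact la
        have h3 := hV.perp b (a - α) pb ps hbd
        rw [← e1, σ.r_comm mb mα h2'] at h3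
        refine σ.P_of_R (R_perp mb ⟨mα, hα.1.2.1, ?_⟩ h2') h3
        rw [σ.lab_r_pos ma y h1', map_sub]
        have := hN.2.2
        rw [map_sub, map_sub] at this
        omega

/-! ### slices containing three given roots -/

/-- every vertex lies in a slice containing `a, b, c` -/
def Sl3 (σ : Sys V X) (a b c : V) : Prop :=
  ∀ x, ∃ sl : Slice σ, (∃ g < 24, sl.e g = x) ∧ sl.In a ∧ sl.In b ∧ sl.In c

theorem sl3_zero (h : S_SLICE σ) {a b α : V} (ma : a ∈ σ.Φ) (mb : b ∈ σ.Φ) (mα : α ∈ σ.Φ)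
    (h0 : σ.ip a b = 0) (h1 : σ.ip α a = -1 ∨ σ.ip α a = 1)
    (h2 : σ.ip α b = -1 ∨ σ.ip α b = 1) : Sl3 σ a b α := by
  intro x
  have h1s := σ.ip_symm α a
  rcases h1 with h1 | h1 <;> rcases h2 with h2 | h2
  · obtain ⟨sl, hg, i1, i2, i3⟩ := h a ma α mα b mb (by omega) h2 h0 x
    exact ⟨sl, hg, i1, i3, i2⟩
  · obtain ⟨sl, hg, i1, i2, i3⟩ := h a ma α mα (-b) (σ.neg_mem mb) (by omega)
      (by rw [σ.ip_neg_right, h2]) (by rw [σ.ip_neg_right, h0]; rfl) x
    exact ⟨sl, hg, i1, by have := Slice.In.neg sl i3; rwa [neg_neg] at this, i2⟩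
  · obtain ⟨sl, hg, i1, i2, i3⟩ := h (-a) (σ.neg_mem ma) α mα b mb
      (by rw [σ.ip_neg]; omega) h2 (by rw [σ.ip_neg, h0]; rfl) x
    exact ⟨sl, hg, by have := Slice.In.neg sl i1; rwa [neg_neg] at this, i3, i2⟩
  · obtain ⟨sl, hg, i1, i2, i3⟩ := h (-a) (σ.neg_mem ma) α mα (-b) (σ.neg_mem mb)
      (by rw [σ.ip_neg]; omega) (by rw [σ.ip_neg_right, h2])
      (by rw [σ.ip_neg, σ.ip_neg_right, h0]; rfl) x
    exact ⟨sl, hg, by have := Slice.In.neg sl i1; rwa [neg_neg] at this,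
      by have := Slice.In.neg sl i3; rwa [neg_neg] at this, i2⟩

theorem sl3_neg (h : S_SLICE σ) {a b α : V} (ma : a ∈ σ.Φ) (mb : b ∈ σ.Φ) (mα : α ∈ σ.Φ)
    (h0 : σ.ip a b = -1) (h1 : -1 ≤ σ.ip α a ∧ σ.ip α a ≤ 1) (h2 : -1 ≤ σ.ip α b ∧ σ.ip α b ≤ 1)
    (h3 : -1 ≤ σ.ip α (a + b) ∧ σ.ip α (a + b) ≤ 1) (h4 : σ.ip α a ≠ 0 ∨ σ.ip α b ≠ 0) :
    Sl3 σ a b α := by
  intro x
  have ms : a + b ∈ σ.Φ := σ.add_mem ma mb h0
  have mc := σ.neg_mem ms
  have s1 := σ.ip_symm α a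
  have s2 := σ.ip_symm α b
  have s0 := σ.ip_symm a b
  have aa := σ.ip_self a ma
  have bb := σ.ip_self b mb
  have e3 : σ.ip α (a + b) = σ.ip α a + σ.ip α b := σ.ip_add_right _ _ _
  have e3' : σ.ip α (-(a + b)) = -(σ.ip α a + σ.ip α b) := by rw [σ.ip_neg_right, e3]
  have e3s : σ.ip (-(a + b)) α = -(σ.ip α a + σ.ip α b) := by rw [σ.ip_symm, e3']
  have eca : σ.ip (-(a + b)) a = -1 := by rw [σ.ip_neg, σ.ip_add]; omega
  have ecb : σ.ip (-(a + b)) b = -1 := by rw [σ.ip_neg, σ.ip_add]; omega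
  have eac : σ.ip a (-(a + b)) = -1 := by rw [σ.ip_symm]; exact eca
  have ebc : σ.ip b (-(a + b)) = -1 := by rw [σ.ip_symm]; exact ecb
  rw [e3] at h3
  have eb : b = -(a + -(a + b)) := by abel
  have ea : a = -(b + -(a + b)) := by abel
  have hb' : ∀ sl : Slice σ, sl.In a → sl.In (-(a + b)) → sl.In b := by
    intro sl i1 i2
    rw [eb]
    exact Slice.In.neg sl (Slice.In.add sl i1 i2 eac)
  have ha' : ∀ sl : Slice σ, sl.In b → sl.In (-(a + b)) → sl.In a := by
    intro sl i1 i2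
    rw [ea]
    exact Slice.In.neg sl (Slice.In.add sl i1 i2 ebc)
  have hcase : (σ.ip α a = 0 ∧ σ.ip α b = -1) ∨ (σ.ip α a = 0 ∧ σ.ip α b = 1) ∨
      (σ.ip α a = -1 ∧ σ.ip α b = 0) ∨ (σ.ip α a = 1 ∧ σ.ip α b = 0) ∨
      (σ.ip α a = 1 ∧ σ.ip α b = -1) ∨ (σ.ip α a = -1 ∧ σ.ip α b = 1) := by omega
  rcases hcase with ⟨c1, c2⟩ | ⟨c1, c2⟩ | ⟨c1, c2⟩ | ⟨c1, c2⟩ | ⟨c1, c2⟩ | ⟨c1, c2⟩
  · -- chain `a, b, α`
    obtain ⟨sl, hg, i1, i2, i3⟩ := h a ma b mb α mα h0 (by omega) (by omega) x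
    exact ⟨sl, hg, i1, i2, i3⟩
  · -- chain `a, c, α`
    obtain ⟨sl, hg, i1, i2, i3⟩ := h a ma _ mc α mα eac (by omega) (by omega) x
    exact ⟨sl, hg, i1, hb' sl i1 i2, i3⟩
  · -- chain `b, a, α`
    obtain ⟨sl, hg, i1, i2, i3⟩ := h b mb a ma α mα (by omega) (by omega) (by omega) x
    exact ⟨sl, hg, i2, i1, i3⟩
  · -- chain `b, c, α`
    obtain ⟨sl, hg, i1, i2, i3⟩ := h b mb _ mc α mα ebc (by omega) (by omega) x
    exact ⟨sl, hg, ha' sl i1 i2, i1, i3⟩
  · -- chain `c, b, α`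
    obtain ⟨sl, hg, i1, i2, i3⟩ := h _ mc b mb α mα ecb (by omega) (by omega) x
    exact ⟨sl, hg, ha' sl i2 i1, i2, i3⟩
  · -- chain `c, a, α`
    obtain ⟨sl, hg, i1, i2, i3⟩ := h _ mc a ma α mα eca (by omega) (by omega) x
    exact ⟨sl, hg, i2, hb' sl i2 i1, i3⟩

theorem sl3_pos (h : S_SLICE σ) {a b α : V} (ma : a ∈ σ.Φ) (mb : b ∈ σ.Φ) (mα : α ∈ σ.Φ)
    (h0 : σ.ip a b = 1) (h1 : -1 ≤ σ.ip α a ∧ σ.ip α a ≤ 1) (h2 : -1 ≤ σ.ip α b ∧ σ.ip α b ≤ 1)
    (h3 : -1 ≤ σ.ip α (a - b) ∧ σ.ip α (a - b) ≤ 1) (h4 : σ.ip α a ≠ 0 ∨ σ.ip α b ≠ 0) :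
    Sl3 σ a b α := by
  intro x
  have e := σ.ip_neg_right α b
  obtain ⟨sl, hg, i1, i2, i3⟩ := sl3_neg h ma (σ.neg_mem mb) mα (by rw [σ.ip_neg_right, h0]) h1
    (by omega) (by rw [← sub_eq_add_neg]; exact h3) (by omega) x
  exact ⟨sl, hg, i1, by have := Slice.In.neg sl i2; rwa [neg_neg] at this, i3⟩

/-! ### case II: the table -/

theorem vreg_at {Y g i j : ℕ} (h : vreg Y g = true) (hi : i ∈ r6) (hj : j ∈ r6)
    (pi : psi Y g i = true) (pj : psi Y g j = true) (hij : i ≠ j) :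
    (if ipN i j == 1 then bit Y (T (T g j) i)
      else if ipN i j == 0 then (bit Y (T (T g j) i) || bit Y (T (T g i) j))
      else (subN j i == 7 || sgn g (subN j i) || bit Y (T (T g j) i))) = true := by
  unfold vreg at h
  rw [List.all_eq_true] at h
  have h1 := h i hi
  rw [pi] at h1
  simp only [Bool.not_true, Bool.false_or] at h1
  rw [List.all_eq_true] at h1
  have h2 := h1 j hj
  rw [pj] at h2
  simp only [Bool.not_true, Bool.false_or] at h2
  rw [Bool.or_eq_true] at h2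
  rcases h2 with h2 | h2
  · exact absurd (beq_iff_eq.1 h2) hij
  · exact h2

theorem mem_r6 {k : ℕ} : k ∈ r6 ↔ k < 6 := by
  simp only [r6, List.mem_cons, List.not_mem_nil, or_false]
  omega

theorem mem_r24 {k : ℕ} (h : k < 24) : k ∈ r24 := by
  simp only [r24, List.mem_cons, List.not_mem_nil, or_false]
  omega

theorem case2 (h2 : S_SLY σ) (h3 : S_TR σ) {y : X} {α a b : V}
    (hreg : ∀ a, σ.Psi y a → σ.RegUp (σ.r a y)) (hα : σ.Psi y α)
    (hi : Indec σ y α) (hv : VAt σ y α) (ha : σ.Psi y a) (hb : σ.Psi y b) (hab : a ≠ b)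
    (hsl : Sl3 σ a b α) : Pair σ y a b := by
  obtain ⟨sl, ⟨g, hg, rfl⟩, ia, ib, iα⟩ := hsl y
  obtain ⟨i, hi6, rfl⟩ := Slice.In.pos sl ia ha.1.2.1
  obtain ⟨j, hj6, rfl⟩ := Slice.In.pos sl ib hb.1.2.1
  obtain ⟨k, hk6, rfl⟩ := Slice.In.pos sl iα hα.1.2.1
  obtain ⟨Y, m, hY⟩ := h2 sl
  have hTR := h3 sl Y hY.P
  have hPy : σ.P (sl.e g) := σ.P_of_R hα.1 hα.2
  have bg : bit Y g = true := (hY.P g hg).2 hPy
  have hup : (r6.all fun k => !(psi Y g k) || bit m (T g k)) = true := by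
    rw [List.all_eq_true]
    intro l hl
    have hl6 := mem_r6.1 hl
    by_cases hp : psi Y g l = true
    · rw [hp]
      simp only [Bool.not_true, Bool.false_or]
      have h4 : σ.Psi (sl.e g) (sl.ρ l) := ((hTR g hg).2 l hl6).1.1 hp
      have h5 := hreg _ h4
      rw [sl.eT g hg l hl6] at h5
      refine hY.reg _ (T_lt g hg l hl6) ?_ h5
      unfold psi at hp
      rw [Bool.and_eq_true] at hp
      exact hp.2
    · rw [Bool.not_eq_true] at hp
      rw [hp]; rfl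
  have hrun : chkVX Y g = true := by
    have h4 := chkVX_true
    unfold runVX' at h4
    rw [List.all_eq_true] at h4
    have h5 := h4 (Y, m) hY.mem
    rw [List.all_eq_true] at h5
    have h6 := h5 g (mem_r24 hg)
    simp only at h6
    rw [bg, hup] at h6
    simpa using h6
  have hind : indec g k = true := by
    unfold indec
    rw [List.all_eq_true]
    intro p hp
    rw [List.all_eq_true]
    intro q hq
    have hp6 := mem_r6.1 hp
    have hq6 := mem_r6.1 hq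
    rw [Bool.not_eq_true']
    by_contra hc
    rw [Bool.not_eq_false, Bool.and_eq_true, Bool.and_eq_true] at hc
    obtain ⟨⟨c1, c2⟩, c3⟩ := hc
    have c4 : addN p q = k := beq_iff_eq.1 c3
    have c5 := sl.addρ p hp6 q hq6 (by omega)
    rw [c4] at c5
    exact hi (sl.ρ p) (sl.ρ q) (((hTR g hg).2 p hp6).2.1.1 c1) (((hTR g hg).2 q hq6).2.1.1 c2)
      c5.symm
  have hbit : ∀ p < 6, ∀ q < 6, (bit Y (T (T g p) q) = true ↔
      σ.P (σ.r (sl.ρ q) (σ.r (sl.ρ p) (sl.e g)))) := by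
    intro p hp q hq
    rw [sl.eT g hg p hp, sl.eT _ (T_lt g hg p hp) q hq]
    exact hY.P _ (T_lt _ (T_lt g hg p hp) q hq)
  have hvat : vat Y g k = true := by
    unfold vat
    rw [List.all_eq_true]
    intro p hp
    have hp6 := mem_r6.1 hp
    by_cases hpk : p = k
    · simp [hpk]
    by_cases hps : psi Y g p = true
    swap
    · rw [Bool.not_eq_true] at hps
      simp [hps]
    have h4 : σ.Psi (sl.e g) (sl.ρ p) := ((hTR g hg).2 p hp6).1.1 hps
    have h5 := sl.ipρ k hk6 p hp6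
    have h6 := ipN_le k hk6 p hp6 (Ne.symm hpk)
    rw [Bool.or_eq_true]
    right
    have h012 : ipN k p = 0 ∨ ipN k p = 1 ∨ ipN k p = 2 := by omega
    rcases h012 with h7 | h7 | h7
    · rw [h7] at h5
      have h8 := hv.neg _ h4 (by rw [h5]; norm_num)
      simp only [h7]
      rw [← hbit p hp6 k hk6, ← hbit k hk6 p hp6] at h8
      simpa using h8
    · rw [h7] at h5
      have h8 := hv.perp _ h4 (by rw [h5]; norm_num)
      rw [← hbit p hp6 k hk6] at h8
      simp [h7, h8]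
    · rw [h7] at h5
      have h9 : σ.ip (sl.ρ k) (sl.ρ p) = 1 := by rw [h5]; norm_num
      have g1 : subN p k = 7 ∨ sgn g (subN p k) = true ∨ bit Y (T (T g p) k) = true := by
        by_contra hc
        push Not at hc
        obtain ⟨c1, c2, c3⟩ := hc
        have c6 := subN_lt p hp6 k hk6 c1
        have c7 := sl.subρ p hp6 k hk6 c1
        have c8 : σ.N (sl.e g) (sl.ρ (subN p k)) :=
          ((hTR g hg).2 _ c6).2.2.1.1 (by simpa using c2)
        rw [← c7] at c8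
        exact c3 ((hbit p hp6 k hk6).2 (hv.pos _ h4 h9 c8))
      have g2 : subN k p = 7 ∨ sgn g (subN k p) = true ∨ bit Y (T (T g k) p) = true := by
        by_contra hc
        push Not at hc
        obtain ⟨c1, c2, c3⟩ := hc
        have c6 := subN_lt k hk6 p hp6 c1
        have c7 := sl.subρ k hk6 p hp6 c1
        have c8 : σ.N (sl.e g) (sl.ρ (subN k p)) :=
          ((hTR g hg).2 _ c6).2.2.1.1 (by simpa using c2)
        rw [← c7] at c8
        exact c3 ((hbit k hk6 p hp6).2 (hv.pos' _ h4 h9 c8))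
      simp only [h7]
      simp only [Nat.reduceBEq, Bool.false_eq_true, if_false, Bool.and_eq_true, Bool.or_eq_true,
        beq_iff_eq]
      exact ⟨by tauto, by tauto⟩
  have hpk : psi Y g k = true := ((hTR g hg).2 k hk6).1.2 hα
  have hvr : vreg Y g = true := by
    unfold chkVX at hrun
    rw [Bool.or_eq_true] at hrun
    rcases hrun with h4 | h4
    · exact h4
    · exfalso
      rw [List.all_eq_true] at h4
      have h5 := h4 k (mem_r6.2 hk6)
      rw [hpk, hind, hvat] at h5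
      simp at h5
  have hij : i ≠ j := fun h => hab (by rw [h])
  have hpi : psi Y g i = true := ((hTR g hg).2 i hi6).1.2 ha
  have hpj : psi Y g j = true := ((hTR g hg).2 j hj6).1.2 hb
  have hfin := vreg_at hvr (mem_r6.2 hi6) (mem_r6.2 hj6) hpi hpj hij
  have h5 := sl.ipρ i hi6 j hj6
  refine ⟨fun h => ?_, fun h => ?_, fun h hN => ?_⟩
  · have h7 : ipN i j = 1 := by omega
    simp only [h7] at hfin
    exact (hbit j hj6 i hi6).1 (by simpa using hfin)
  · have h7 : ipN i j = 0 := by omega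
    simp only [h7] at hfin
    rw [← hbit j hj6 i hi6, ← hbit i hi6 j hj6]
    simpa using hfin
  · have h7 : ipN i j = 2 := by omega
    simp only [h7] at hfin
    rw [← hbit j hj6 i hi6]
    rcases sub_cases i hi6 j hj6 h7 with ⟨c1, c2⟩ | ⟨c1, c2⟩
    · exfalso
      have c3 := sl.subρ i hi6 j hj6 (by omega)
      have c4 := (sl.mem _ c1).2
      rw [← c3, map_sub] at c4
      have c5 := hN.2.1
      rw [map_sub] at c5
      omega
    · have c3 := sl.subρ j hj6 i hi6 (by omega)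
      have c4 : sgn g (subN j i) = false := ((hTR g hg).2 _ c1).2.2.1.2 (by rw [← c3]; exact hN)
      have c5 : subN j i ≠ 7 := by omega
      simpa [c4, c5] using hfin

/-! ### the result -/

theorem pair_all (h1 : S_SLICE σ) (h2 : S_SLY σ) (h3 : S_TR σ) {y : X} {α : V}
    (hreg : ∀ a, σ.Psi y a → σ.RegUp (σ.r a y)) (hα : σ.Psi y α)
    (hi : Indec σ y α) (hv : VAt σ y α) {a b : V} (ha : σ.Psi y a) (hb : σ.Psi y b) :
    Pair σ y a b := by
  have mα := hα.1.1
  have ma := ha.1.1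
  have mb := hb.1.1
  have hαα := σ.ip_self α mα
  have sab := σ.ip_symm a b
  by_cases haα : a = α
  · subst haα
    exact ⟨fun h => hv.perp b hb h, fun h => hv.neg b hb h, fun h hN => hv.pos b hb h hN⟩
  by_cases hbα : b = α
  · subst hbα
    refine ⟨fun h => ?_, fun h => ?_, fun h hN => ?_⟩
    · rw [σ.r_comm ma mb h]
      exact hv.perp a ha (by omega)
    · exact (hv.neg a ha (by omega)).symm
    · exact hv.pos' a ha (by omega) hN
  by_cases hab : a = b
  · subst hab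
    have := σ.ip_self a ma
    exact ⟨fun h => by omega, fun h => by omega, fun h => by omega⟩
  have xa := σ.ip_pos mα ma hα.1.2.1 ha.1.2.1 (Ne.symm haα)
  have xb := σ.ip_pos mα mb hα.1.2.1 hb.1.2.1 (Ne.symm hbα)
  have xab := σ.ip_pos ma mb ha.1.2.1 hb.1.2.1 hab
  by_cases hz : σ.ip α a = 0 ∧ σ.ip α b = 0
  · exact case1 hreg hα hv ha hb hz.1 hz.2
  have hne : σ.ip α a ≠ 0 ∨ σ.ip α b ≠ 0 := by omega
  rcases xab with h | h | h
  · -- `ip a b = -1`
    have ms := σ.add_mem ma mb h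
    have e1 : α ≠ a + b := hi a b ha.1 hb.1
    have e2 : α ≠ -(a + b) := by
      intro e
      have p1 := hα.1.2.1
      have p2 := ha.1.2.1
      have p3 := hb.1.2.1
      rw [e, map_neg, map_add] at p1
      omega
    refine case2 h2 h3 hreg hα hi hv ha hb hab
      (sl3_neg h1 ma mb mα h (by omega) (by omega) (σ.ip_bd α mα _ ms e1 e2) hne)
  · -- `ip a b = 0`
    refine ⟨fun _ => ?_, fun h' => by omega, fun h' => by omega⟩
    by_cases hA : σ.ip α a = 0
    · rw [σ.r_comm ma mb h] at *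
      have := case3 hreg hα hi hv hb ha (by omega) hA (by omega)
      rwa [σ.r_comm ma mb h] at this
    by_cases hB : σ.ip α b = 0
    · have := case3 hreg hα hi hv ha hb h hB (by omega)
      rwa [σ.r_comm ma mb h]
    · exact (case2 h2 h3 hreg hα hi hv ha hb hab
        (sl3_zero h1 ma mb mα h (by omega) (by omega))).1 h
  · -- `ip a b = 1`
    refine ⟨fun h' => by omega, fun h' => by omega, fun _ hN => ?_⟩
    have md := σ.sub_mem ma mb h
    have e1 : α ≠ a - b := by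
      intro e
      have p1 := hα.1.2.1
      have p2 := hN.2.1
      rw [e, map_sub] at p1
      rw [map_sub] at p2
      omega
    have e2 : α ≠ -(a - b) := by
      intro e
      rw [neg_sub] at e
      rw [← e] at hN
      exact σ.not_R_and_N hα.1 hN
    exact (case2 h2 h3 hreg hα hi hv ha hb hab
      (sl3_pos h1 ma mb mα h (by omega) (by omega) (σ.ip_bd α mα _ md e1 e2) hne)).2.2 h hN

theorem vx (h1 : S_SLICE σ) (h2 : S_SLY σ) (h3 : S_TR σ) : S_VX σ := by
  intro y α hreg hα hi hv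
  exact ⟨fun a b ha hb h => (pair_all h1 h2 h3 hreg hα hi hv ha hb).1 h,
    fun a b ha hb h => (pair_all h1 h2 h3 hreg hα hi hv ha hb).2.1 h,
    fun a b ha hb h hN => (pair_all h1 h2 h3 hreg hα hi hv ha hb).2.2 h hN⟩

end Pool.Agent.W828.DC
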